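import Pool.Agent.Helper44.KS.GoalsD

/-!
# KS-HJ: derivatives of the density condition
-/

namespace Pool.Agent.Helper62.KS

open MeasureTheory Filter Topology Set Pool.Agent.Helper44.KS
open scoped ENNReal ContDiff

lemma taylor_bd (φ : ℝ → ℝ) (hφ : ContDiff ℝ ∞ φ) (B : ℝ) (hB : ∀ x, |deriv (deriv φ) x| ≤ B)
    (y u : ℝ) : |φ (y + u) - φ y - u * deriv φ y| ≤ B * u ^ 2 := by
  have hφ' : ContDiff ℝ ∞ (deriv φ) := by
    have := hφ.iterate_deriv 1
    simpa using this
  have hd1 : Differentiable ℝ φ := hφ.differentiable (by simp)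
  have hd2 : Differentiable ℝ (deriv φ) := hφ'.differentiable (by simp)
  have hB0 : 0 ≤ B := (abs_nonneg _).trans (hB 0)
  have hLip : ∀ x, |deriv φ x - deriv φ y| ≤ B * |x - y| := by
    intro x
    have := Convex.norm_image_sub_le_of_norm_hasDerivWithin_le (f := deriv φ)
      (f' := deriv (deriv φ)) (s := Set.univ) (C := B) (x := y) (y := x)
      (fun z _ => (hd2 z).hasDerivAt.hasDerivWithinAt) (fun z _ => hB z) convex_univ
      (mem_univ _) (mem_univ _)
    simpa [Real.norm_eq_abs] using this
  have h2 := Convex.norm_image_sub_le_of_norm_hasDerivWithin_le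
    (f := fun x => φ x - x * deriv φ y) (f' := fun x => deriv φ x - deriv φ y)
    (s := Metric.closedBall y |u|) (C := B * |u|) (x := y) (y := y + u)
    (fun z _ => by
      have ha := (hd1 z).hasDerivAt
      have hb := (hasDerivAt_id z).mul_const (deriv φ y)
      have := ha.sub hb
      rw [one_mul] at this
      exact this.hasDerivWithinAt)
    (fun z hz => by
      rw [Metric.mem_closedBall, Real.dist_eq] at hz
      rw [Real.norm_eq_abs]
      exact (hLip z).trans (mul_le_mul_of_nonneg_left hz hB0))
    (convex_closedBall _ _) (Metric.mem_closedBall_self (abs_nonneg _))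
    (by rw [Metric.mem_closedBall, Real.dist_eq]; simp)
  simp only [Real.norm_eq_abs] at h2
  have e1 : φ (y + u) - (y + u) * deriv φ y - (φ y - y * deriv φ y)
      = φ (y + u) - φ y - u * deriv φ y := by ring
  rw [e1] at h2
  have e2 : B * |u| * |y + u - y| = B * u ^ 2 := by
    rw [add_sub_cancel_left, mul_assoc, ← sq, sq_abs]
  rw [e2] at h2
  exact h2

lemma prod_bd {ι : Type} (w : ι → ℝ) (R : ℝ) (hw : ∀ i, |w i| ≤ R) (l : List ι) :
    |(l.map w).prod| ≤ R ^ l.length := by
  induction l with
  | nil => simp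
  | cons i l ih =>
    simp only [List.map_cons, List.prod_cons, List.length_cons]
    rw [abs_mul, pow_succ, mul_comm (R ^ l.length)]
    exact mul_le_mul (hw i) ih (abs_nonneg _) ((abs_nonneg _).trans (hw i))

lemma iter_smooth (G : ℝ → ℝ) (hG : ContDiff ℝ ∞ G) (j : ℕ) :
    ContDiff ℝ ∞ (iteratedDeriv j G) := by
  rw [iteratedDeriv_eq_iterate]
  exact hG.iterate_deriv j

lemma iter_supp (G : ℝ → ℝ) (hG : HasCompactSupport G) (j : ℕ) :
    HasCompactSupport (iteratedDeriv j G) := by
  induction j with
  | zero => simpa using hG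
  | succ j ih =>
    rw [iteratedDeriv_succ]
    exact ih.deriv

theorem hj (h1 : S_TCT) : S_HJ := by
  intro r T l
  induction l with
  | nil =>
    intro t ht G hG hGc
    simpa using T.fill t ht.le G hG hGc
  | cons i l ih =>
    intro t ht G hG hGc
    rw [if_neg (by simp)]
    have hlen : (i :: l).length = l.length + 1 := rfl
    rw [hlen]
    simp only [iteratedDeriv_succ, List.map_cons, List.prod_cons]
    have ih' := fun t ht => ih t ht G hG hGc
    clear ih
    have hφs := iter_smooth G hG l.length
    have hφc := iter_supp G hGc l.length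
    set φ := iteratedDeriv l.length G with hφ
    -- support
    obtain ⟨M, hM⟩ := hφc.isCompact.isBounded.subset_closedBall (0 : ℝ)
    have hM0 : ∀ x, max M 0 < |x| → φ x = 0 ∧ deriv φ x = 0 := by
      intro x hx
      have hxs : x ∉ tsupport φ := by
        intro hcon
        have := hM hcon
        rw [Metric.mem_closedBall, Real.dist_eq, sub_zero] at this
        exact absurd (lt_of_le_of_lt (le_max_left M 0) hx) (not_lt.2 this)
      refine ⟨image_eq_zero_of_notMem_tsupport hxs, ?_⟩
      by_contra hcon
      exact hxs (support_deriv_subset (Function.mem_support.2 hcon))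
    set M' := max M 0 with hM'
    have hM'0 : 0 ≤ M' := le_max_right _ _
    -- bound of the second derivative
    obtain ⟨B, hB⟩ : ∃ B, ∀ x, |deriv (deriv φ) x| ≤ B := by
      have hc2 : HasCompactSupport (deriv (deriv φ)) := hφc.deriv.deriv
      have hcont : Continuous (deriv (deriv φ)) := by
        have := hφs.iterate_deriv 2
        simpa using this.continuous
      obtain ⟨B, hB⟩ := hc2.exists_bound_of_continuous hcont
      exact ⟨B, fun x => by simpa [Real.norm_eq_abs] using hB x⟩
    have hB0 : 0 ≤ B := (abs_nonneg _).trans (hB 0)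
    have hR := T.R_pos
    have hτ := T.τ_pos
    set c0 : ℝ := B * T.R ^ 2 * T.R ^ l.length with hc0
    have hc00 : 0 ≤ c0 := by positivity
    set K : ℝ := 15 * ((M' + T.R) - (-(M' + T.R)) + 2 * T.τ * T.R + 2) * c0 with hK
    have hK0 : 0 ≤ K := by
      have h0 : 0 ≤ (M' + T.R) - (-(M' + T.R)) + 2 * T.τ * T.R + 2 := by
        have : 0 ≤ 2 * T.τ * T.R := by positivity
        linarith
      rw [hK]
      positivity
    set Fn : (Fin r → ℝ) → ℕ → ℝ := fun t N => (∑ p ∈ T.P N,
      φ (T.a N p + ∑ i, t i * T.w N p i) * (l.map (T.w N p)).prod) / T.S N with hFn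
    set F' : ℕ → ℝ := fun N => (∑ p ∈ T.P N,
      deriv φ (T.a N p + ∑ i, t i * T.w N p i) * (T.w N p i * (l.map (T.w N p)).prod)) / T.S N
      with hF'
    have key : ∀ N, ∀ h : ℝ, |h| ≤ 1 →
        |Fn (t + Pi.single i h) N - Fn t N - h * F' N| ≤ K * h ^ 2 := by
      intro N h hh
      have hS := T.S_pos N
      have hy : ∀ p, ∑ k, (t + Pi.single i h : Fin r → ℝ) k * T.w N p k =
          ∑ k, t k * T.w N p k + h * T.w N p i := by
        intro p
        simp only [Pi.add_apply, add_mul, Finset.sum_add_distrib]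
        congr 1
        rw [Finset.sum_eq_single i]
        · simp
        · intro k _ hk
          rw [Pi.single_eq_of_ne hk, zero_mul]
        · intro hcon; exact absurd (Finset.mem_univ _) hcon
      set y : Fin (T.k N) → ℝ := fun p => T.a N p + ∑ k, t k * T.w N p k with hydef
      set pr : Fin (T.k N) → ℝ := fun p => (l.map (T.w N p)).prod with hpr
      have e : Fn (t + Pi.single i h) N - Fn t N - h * F' N =
          (∑ p ∈ T.P N, (φ (y p + h * T.w N p i) - φ (y p) - h * T.w N p i * deriv φ (y p)) *
            pr p) / T.S N := by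
        simp only [hFn, hF']
        rw [mul_div_assoc', ← sub_div, ← sub_div, Finset.mul_sum, ← Finset.sum_sub_distrib,
          ← Finset.sum_sub_distrib]
        congr 1
        refine Finset.sum_congr rfl (fun p _ => ?_)
        rw [hy p, ← add_assoc]
        simp only [hydef, hpr]
        ring
      rw [e, abs_div, abs_of_pos hS, div_le_iff₀ hS]
      have hterm : ∀ p ∈ T.P N,
          |(φ (y p + h * T.w N p i) - φ (y p) - h * T.w N p i * deriv φ (y p)) * pr p| ≤
          if (-(M' + T.R) ≤ y p ∧ y p ≤ M' + T.R) then c0 * h ^ 2 else 0 := by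
        intro p hp
        have hw := T.bd N p hp
        have hhw : |h * T.w N p i| ≤ T.R := by
          rw [abs_mul]
          calc |h| * |T.w N p i| ≤ 1 * T.R := mul_le_mul hh (hw i) (abs_nonneg _) zero_le_one
            _ = T.R := one_mul _
        split_ifs with hc
        · rw [abs_mul]
          have ht1 := taylor_bd φ hφs B hB (y p) (h * T.w N p i)
          have ht2 : B * (h * T.w N p i) ^ 2 ≤ B * T.R ^ 2 * h ^ 2 := by
            rw [mul_pow]
            have : T.w N p i ^ 2 ≤ T.R ^ 2 := by
              rw [← sq_abs]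
              exact pow_le_pow_left₀ (abs_nonneg _) (hw i) 2
            calc B * (h ^ 2 * T.w N p i ^ 2) ≤ B * (h ^ 2 * T.R ^ 2) := by gcongr
              _ = _ := by ring
          calc _ ≤ (B * T.R ^ 2 * h ^ 2) * T.R ^ l.length :=
                mul_le_mul (ht1.trans ht2) (prod_bd _ _ hw l) (abs_nonneg _) (by positivity)
            _ = c0 * h ^ 2 := by rw [hc0]; ring
        · have hyp : M' + T.R < |y p| := by
            by_contra hcon
            push Not at hcon
            exact hc (abs_le.1 hcon)
          have z1 := hM0 (y p) (by linarith)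
          have z2 := hM0 (y p + h * T.w N p i) (by
            have := abs_sub_abs_le_abs_sub (y p) (-(h * T.w N p i))
            rw [sub_neg_eq_add, abs_neg] at this
            linarith)
          rw [z1.1, z1.2, z2.1]
          simp
      have hcount := h1 r T N t (-(M' + T.R)) (M' + T.R) ht.le (by linarith)
      calc |∑ p ∈ T.P N, (φ (y p + h * T.w N p i) - φ (y p) - h * T.w N p i * deriv φ (y p)) * pr p|
          ≤ ∑ p ∈ T.P N, |(φ (y p + h * T.w N p i) - φ (y p) -
              h * T.w N p i * deriv φ (y p)) * pr p| := Finset.abs_sum_le_sum_abs _ _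
        _ ≤ ∑ p ∈ T.P N, (if (-(M' + T.R) ≤ y p ∧ y p ≤ M' + T.R) then c0 * h ^ 2 else 0) :=
            Finset.sum_le_sum hterm
        _ = (((T.P N).filter fun p => -(M' + T.R) ≤ y p ∧ y p ≤ M' + T.R).card : ℝ) *
              (c0 * h ^ 2) := by
            rw [← Finset.sum_filter, Finset.sum_const, nsmul_eq_mul]
        _ ≤ (15 * ((M' + T.R) - (-(M' + T.R)) + 2 * T.τ * T.R + 2) * T.S N) * (c0 * h ^ 2) :=
            mul_le_mul_of_nonneg_right hcount (by positivity)
        _ = K * h ^ 2 * T.S N := by rw [hK]; ring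
    rw [Metric.tendsto_atTop]
    intro ε hε
    set δ : ℝ := T.τ - ∑ i, |t i| with hδ
    have hδ0 : 0 < δ := by rw [hδ]; linarith
    obtain ⟨h, hh0, hh1, hh2, hh3⟩ : ∃ h : ℝ, 0 < h ∧ h ≤ 1 ∧ h < δ ∧ K * h < ε / 2 := by
      refine ⟨min (min 1 (δ / 2)) (ε / (2 * (K + 1)) / 2), ?_, ?_, ?_, ?_⟩
      · positivity
      · exact (min_le_left _ _).trans (min_le_left _ _)
      · have : min (min 1 (δ / 2)) (ε / (2 * (K + 1)) / 2) ≤ δ / 2 :=
          (min_le_left _ _).trans (min_le_right _ _)
        linarith
      · have h5 : min (min 1 (δ / 2)) (ε / (2 * (K + 1)) / 2) ≤ ε / (2 * (K + 1)) / 2 :=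
          min_le_right _ _
        have h6 : (K + 1) * (ε / (2 * (K + 1)) / 2) = ε / 4 := by
          field_simp
          ring
        have h7 : K * min (min 1 (δ / 2)) (ε / (2 * (K + 1)) / 2) ≤
            (K + 1) * (ε / (2 * (K + 1)) / 2) :=
          mul_le_mul (by linarith) h5 (by positivity) (by positivity)
        linarith
    have ht' : ∑ k, |(t + Pi.single i h : Fin r → ℝ) k| < T.τ := by
      have : ∑ k, |(t + Pi.single i h : Fin r → ℝ) k| ≤ ∑ k, |t k| + h := by
        calc ∑ k, |(t + Pi.single i h : Fin r → ℝ) k| ≤ ∑ k, (|t k| + |(Pi.single i h : Fin r → ℝ) k|) :=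
              Finset.sum_le_sum (fun k _ => abs_add_le _ _)
          _ = ∑ k, |t k| + ∑ k, |(Pi.single i h : Fin r → ℝ) k| := Finset.sum_add_distrib
          _ = ∑ k, |t k| + h := by
              congr 1
              rw [Finset.sum_eq_single i]
              · rw [Pi.single_eq_same, abs_of_pos hh0]
              · intro k _ hk
                rw [Pi.single_eq_of_ne hk, abs_zero]
              · intro hcon; exact absurd (Finset.mem_univ _) hcon
      linarith
    have hlim : Tendsto (fun N => Fn (t + Pi.single i h) N - Fn t N) atTop (𝓝 0) := by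
      have := (ih' _ ht').sub (ih' _ ht)
      rw [sub_self] at this
      exact this
    rw [Metric.tendsto_atTop] at hlim
    obtain ⟨N0, hN0⟩ := hlim (h * (ε / 2)) (by positivity)
    refine ⟨N0, fun N hN => ?_⟩
    have hk := key N h (by rw [abs_of_pos hh0]; exact hh1)
    have hl := hN0 N hN
    rw [Real.dist_eq, sub_zero] at hl ⊢
    have h8 : |h * F' N| ≤ K * h ^ 2 + h * (ε / 2) := by
      have : h * F' N = (Fn (t + Pi.single i h) N - Fn t N) -
          (Fn (t + Pi.single i h) N - Fn t N - h * F' N) := by ring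
      rw [this]
      refine (abs_sub _ _).trans ?_
      linarith
    rw [abs_mul, abs_of_pos hh0] at h8
    have h9 : h * |F' N| < h * ε := by nlinarith
    exact lt_of_mul_lt_mul_left h9 hh0.le

end Pool.Agent.Helper62.KS
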