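import Pool.Agent.Helper75.KS.GoalsX
import Pool.Agent.Helper12.GP.MST
import Pool.Agent.Helper96.GP.PEEL

/-!
# KS-EXM: expectations in the exponential model
-/

namespace Pool.Agent.Helper62.KS

open MeasureTheory Filter Topology Finset
open Pool.Agent.Helper75.KS
open Pool.Agent.Helper89.GP (LX po Ex Pr hh Ch)

lemma P0_prob (n : ℕ) : IsProbabilityMeasure (P0 n) := ⟨by
  unfold P0
  rw [withDensity_apply _ MeasurableSet.univ, Measure.restrict_univ]
  exact Pool.Agent.Helper12.GP.mst Pool.Agent.Helper96.GP.peel n⟩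

theorem exm (h1 : StrStmt) : ExmStmt := by
  intro n R hne
  have := P0_prob n
  have hT : ∀ σ : Equiv.Perm (Fin n), Measurable (fun (x : Fin n → ℝ) (a : Fin n) => x (σ a)) :=
    fun σ => measurable_pi_lambda _ (fun a => measurable_pi_apply _)
  have hcard : (LX R).card ≠ 0 := Finset.card_ne_zero.2 hne
  have hc0 : ((LX R).card : ENNReal)⁻¹ ≠ ⊤ := ENNReal.inv_ne_top.2 (by exact_mod_cast hcard)
  have hfirst : ∀ f : (Fin n → ℝ) → ℝ, Measurable f →
      (∀ σ ∈ LX R, Integrable (fun x => f fun a => x (σ a)) (P0 n)) →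
      Integrable f (mu R) ∧
        ∫ x, f x ∂(mu R) = Ex R fun σ => ∫ x, f (fun a => x (σ a)) ∂(P0 n) := by
    intro f hf hint
    have hint' : ∀ σ ∈ LX R, Integrable f ((P0 n).map fun x a => x (σ a)) := by
      intro σ hσ
      rw [integrable_map_measure hf.aestronglyMeasurable (hT σ).aemeasurable]
      exact hint σ hσ
    rw [h1 n R hne]
    refine ⟨(integrable_finset_sum_measure.2 hint').smul_measure hc0, ?_⟩
    rw [integral_smul_measure, integral_finset_sum_measure hint', ENNReal.toReal_inv,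
      ENNReal.toReal_natCast]
    unfold Ex
    rw [div_eq_inv_mul, smul_eq_mul]
    congr 1
    refine Finset.sum_congr rfl (fun σ _ => ?_)
    rw [integral_map (hT σ).aemeasurable hf.aestronglyMeasurable]
  refine ⟨hfirst, fun A hA => ?_⟩
  have hpre : ∀ σ : Equiv.Perm (Fin n),
      MeasurableSet {x : Fin n → ℝ | (fun a => x (σ a)) ∈ A} := fun σ => hT σ hA
  have hind : ∀ σ : Equiv.Perm (Fin n), (fun x : Fin n → ℝ => A.indicator (1 : (Fin n → ℝ) → ℝ)
      (fun a => x (σ a))) = {x : Fin n → ℝ | (fun a => x (σ a)) ∈ A}.indicator 1 := by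
    intro σ
    funext x
    by_cases hx : (fun a => x (σ a)) ∈ A <;> simp [Set.indicator, hx]
  have h2 := hfirst (A.indicator 1) (measurable_one.indicator hA) (by
    intro σ _
    rw [hind σ]
    exact (integrable_const (1 : ℝ)).indicator (hpre σ))
  rw [integral_indicator_one hA] at h2
  rw [h2.2]
  congr 1
  funext σ
  rw [hind σ, integral_indicator_one (hpre σ)]

end Pool.Agent.Helper62.KS
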